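import Pool.Agent.H741.EL.Stm
import Pool.Graph.R_seed8.Y508.FP.Fn

/-!
# Project EL: JOR, consequences of the Jordan curve theorem for admissible curves
-/

set_option autoImplicit false
open MeasureTheory Metric Set Filter Topology

namespace Pool.Agent.H741.EL
open Pool.Agent.Y508

namespace JORL

/-- the inside of the curve lies in the hull -/
lemma inside_sub {Γ K Ω X : Set E2} (hK : IsCompact K) (hc : Convex ℝ K) (hne : K.Nonempty)
    (hΓ : Γ ⊆ K) (hΩ : IsOpen Ω) (hX : IsOpen X) (hd : Disjoint Ω X) (hu : Ω ∪ X = Γᶜ)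
    (hb : Bornology.IsBounded Ω) : Ω ⊆ K := by
  intro x hx
  by_contra hxK
  obtain ⟨θ, hθ⟩ := sep hK hc hne hxK
  obtain ⟨H, hH⟩ : ∃ H : Set E2, H = {y | hs K θ < ip y θ} := ⟨_, rfl⟩
  have hcv : Convex ℝ H := by
    rw [hH]
    intro y hy z hz s t hs0 ht hst
    simp only [mem_ofPred_eq] at hy hz ⊢
    rw [ip_add, ip_smul, ip_smul]
    have e : hs K θ = s * hs K θ + t * hs K θ := by rw [← add_mul, hst, one_mul]
    rcases eq_or_lt_of_le hs0 with h0 | h0
    · rw [← h0] at hst ⊢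
      rw [zero_add] at hst
      rw [hst]
      linarith
    · have h1 : s * hs K θ < s * ip y θ := mul_lt_mul_of_pos_left hy h0
      have h2 : t * hs K θ ≤ t * ip z θ := mul_le_mul_of_nonneg_left hz.le ht
      linarith
  have hsub : H ⊆ Ω ∪ X := by
    rw [hu]
    intro y hy hyΓ
    rw [hH] at hy
    exact absurd (le_hs hK (hΓ hyΓ) θ) (not_le.2 hy)
  have hxH : x ∈ H := by rw [hH]; exact hθ
  rcases hcv.isPreconnected.subset_or_subset hΩ hX hd hsub with h | h
  · obtain ⟨R, hR⟩ := (hb.subset h).exists_norm_le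
    have hR0 : 0 ≤ R := (norm_nonneg _).trans (hR x hxH)
    have h1 : x + (2 * R + 1) • ev θ ∈ H := by
      rw [hH]
      simp only [mem_ofPred_eq]
      rw [ip_add, ip_smul, ip_ev, sub_self, Real.cos_zero, mul_one]
      linarith
    have h2 := hR _ h1
    have h3 : ‖(2 * R + 1) • ev θ‖ ≤ ‖x + (2 * R + 1) • ev θ‖ + ‖x‖ := by
      have h4 : (2 * R + 1) • ev θ = (x + (2 * R + 1) • ev θ) - x := by abel
      calc ‖(2 * R + 1) • ev θ‖ = ‖(x + (2 * R + 1) • ev θ) - x‖ := by rw [← h4]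
        _ ≤ _ := norm_sub_le _ _
    rw [norm_smul, norm_ev, mul_one, Real.norm_eq_abs, abs_of_nonneg (by linarith)] at h3
    have h4 := hR x hxH
    linarith
  · exact disjoint_left.1 hd hx (h hxH)

/-- the main part -/
lemma core {a b : ℝ} {Γ K Ω X U V : Set E2} (hKcpt : IsCompact K) (hKcv : Convex ℝ K)
    (hΓK : Γ ⊆ K)
    (hΩo : IsOpen Ω) (hXo : IsOpen X) (hΩc : IsConnected Ω) (hd : Disjoint Ω X)
    (hu : Ω ∪ X = Γᶜ) (hfΩ : frontier Ω = Γ) (hfX : frontier X = Γ) (hΩK : Ω ⊆ K)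
    (hd2 : Disjoint U V) (hUV : U ∪ V = inE a b \ Γ)
    (hUc : IsPreconnected U) (hVc : IsPreconnected V) (hΩU : Ω ⊆ U)
    (hvU : volume U = ENNReal.ofReal (Real.pi * a * b / 2)) (hab : 0 ≤ Real.pi * a * b / 2) :
    AA a b ≤ volume.real K ∧ (volume.real K ≤ AA a b → Γ = frontier K ∧
      IsPreconnected (inE a b \ K)) := by
  have hUΩ : U = Ω := by
    refine Subset.antisymm ?_ hΩU
    have h1 : U ⊆ Ω ∪ X := by
      rw [hu]
      intro x hx hxΓ
      have h2 : x ∈ inE a b \ Γ := hUV ▸ Or.inl hx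
      exact h2.2 hxΓ
    rcases hUc.subset_or_subset hΩo hXo hd h1 with h | h
    · exact h
    · obtain ⟨y, hy⟩ := hΩc.nonempty
      exact absurd (h (hΩU hy)) (disjoint_left.1 hd hy)
  rw [hUΩ] at hvU
  have hKfin : volume K ≠ ⊤ := hKcpt.measure_lt_top.ne
  have hAA : (AA a b) = volume.real Ω := by
    unfold AA
    rw [measureReal_def, hvU, ENNReal.toReal_ofReal hab]
  refine ⟨?_, fun hle => ?_⟩
  · rw [hAA]
    exact measureReal_mono hΩK hKfin
  have hclΩ : closure Ω = Ω ∪ Γ := by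
    rw [closure_eq_interior_union_frontier, hΩo.interior_eq, hfΩ]
  have hvol : volume (K \ Ω) = 0 := by
    have h1 : volume K ≤ volume Ω := by
      have h2 : volume.real K ≤ volume.real Ω := hAA ▸ hle
      have h3 : volume Ω ≠ ⊤ := ne_top_of_le_ne_top hKfin (measure_mono hΩK)
      rw [measureReal_def, measureReal_def] at h2
      exact (ENNReal.toReal_le_toReal hKfin h3).1 h2
    rw [measure_sdiff hΩK hΩo.measurableSet.nullMeasurableSet
      (ne_top_of_le_ne_top hKfin (measure_mono hΩK))]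
    exact tsub_eq_zero_of_le h1
  have hint : interior K ⊆ Ω ∪ Γ := by
    intro x hx
    by_contra hcon
    have ho : IsOpen (interior K \ closure Ω) := isOpen_interior.sdiff isClosed_closure
    have hne : (interior K \ closure Ω).Nonempty := ⟨x, hx, by rwa [hclΩ]⟩
    have h1 := ho.measure_pos volume hne
    have h2 : volume (interior K \ closure Ω) ≤ volume (K \ Ω) :=
      measure_mono fun y hy => ⟨interior_subset hy.1, fun h => hy.2 (subset_closure h)⟩
    rw [hvol] at h2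
    exact absurd h1 (not_lt.2 h2)
  have hdisj : ∀ x ∈ Γ, x ∉ interior K := by
    intro x hx hxi
    have h1 : x ∈ closure X := frontier_subset_closure (hfX ▸ hx)
    obtain ⟨y, hy1, hy2⟩ := mem_closure_iff.1 h1 _ isOpen_interior hxi
    rcases hint hy1 with h | h
    · exact disjoint_left.1 hd h hy2
    · have h2 : y ∈ Γᶜ := hu ▸ Or.inr hy2
      exact h2 h
  have hΩi : Ω = interior K := by
    refine Subset.antisymm (interior_maximal hΩK hΩo) fun x hx => ?_
    rcases hint hx with h | h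
    · exact h
    · exact absurd hx (hdisj x h)
  have hKeq : K = Ω ∪ Γ := by
    rw [← hclΩ, hΩi, hKcv.closure_interior_eq_closure_of_nonempty_interior
      (hΩi ▸ hΩc.nonempty), hKcpt.isClosed.closure_eq]
  constructor
  · rw [hKcpt.isClosed.frontier_eq]
    ext x
    constructor
    · intro hx
      exact ⟨hΓK hx, hdisj x hx⟩
    · rintro ⟨hx1, hx2⟩
      rw [hKeq] at hx1
      rcases hx1 with h | h
      · exact absurd (hΩi ▸ h) hx2
      · exact h
  · have hV : inE a b \ K = V := by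
      ext x
      constructor
      · rintro ⟨hx1, hx2⟩
        rw [hKeq] at hx2
        have h1 : x ∈ U ∪ V := by
          rw [hUV]
          exact ⟨hx1, fun h => hx2 (Or.inr h)⟩
        rcases h1 with h | h
        · rw [hUΩ] at h
          exact absurd (Or.inl h) hx2
        · exact h
      · intro hx
        have h1 : x ∈ inE a b \ Γ := hUV ▸ Or.inr hx
        refine ⟨h1.1, fun hxK => ?_⟩
        rw [hKeq] at hxK
        rcases hxK with h | h
        · exact disjoint_left.1 hd2 (hUΩ ▸ h) hx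
        · exact h1.2 h
    rw [hV]
    exact hVc

lemma preconn {U : Set E2} (h : SimplyConnectedSpace U) : IsPreconnected U := by
  have h1 : ConnectedSpace U := inferInstance
  exact (isConnected_iff_connectedSpace.2 h1).isPreconnected

end JORL

open JORL in
theorem t_JOR (h1 : S_JCT) (h2 : S_ELL) : S_JOR := by
  intro a b p γ hb hab hA
  obtain ⟨hE, hEi, -, -, -, -, -, -⟩ := h2 a b hb hab
  obtain ⟨Γ, hΓ⟩ : ∃ Γ : Set E2, Γ = γ '' Icc 0 1 := ⟨_, rfl⟩
  obtain ⟨Ω, X, hΩo, hXo, hΩc, hXc, hd, hu, hΩb, hXb, hfΩ, hfX⟩ := h1 γ hA.simple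
  obtain ⟨U, V, hU, hV, hd2, hUV, hUs, hVs, hvU, hvV⟩ := hA.split
  have hsub := hA.sub
  have hmem := hA.mem
  rw [← hΓ] at hu hfΩ hfX hUV hsub hmem ⊢
  obtain ⟨K, hK⟩ : ∃ K : Set E2, K = convexHull ℝ Γ := ⟨_, rfl⟩
  rw [← hK]
  have hΓc : IsCompact Γ := by
    rw [hΓ]
    exact isCompact_Icc.image_of_continuousOn hA.simple.cont
  have hKc : IsCompact K := by
    rw [hK]
    exact Pool.Agent.Y508.FP.Fn.compact_hull hΓc
  have hKv : Convex ℝ K := by
    rw [hK]
    exact convex_convexHull ℝ Γ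
  have hΓK : Γ ⊆ K := by
    rw [hK]
    exact subset_convexHull ℝ Γ
  have hKE : K ⊆ Ell a b := by
    rw [hK]
    exact convexHull_min hsub hE.cvx
  have hΩK : Ω ⊆ K := inside_sub hKc hKv ⟨p, hΓK hmem⟩ hΓK hΩo hXo hd hu hΩb
  have hKi : interior K ⊆ inE a b := by
    rw [← hEi]
    exact interior_mono hKE
  have hΩi : Ω ⊆ interior K := interior_maximal hΩK hΩo
  have hpi : 0 ≤ Real.pi * a * b / 2 := by
    have := Real.pi_pos
    have : 0 < a := hb.trans_le hab
    positivity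
  have hΩUV : Ω ⊆ U ∪ V := by
    rw [hUV]
    intro x hx
    refine ⟨hKi (hΩi hx), fun h => ?_⟩
    have h3 : x ∈ Γᶜ := hu ▸ Or.inl hx
    exact h3 h
  refine ⟨⟨hKc, hKv, hΩc.nonempty.mono hΩi⟩, hKE, hΓK hmem, ?_⟩
  rcases hΩc.isPreconnected.subset_or_subset hU hV hd2 hΩUV with h | h
  · exact core hKc hKv hΓK hΩo hXo hΩc hd hu hfΩ hfX hΩK hd2 hUV (preconn hUs) (preconn hVs) h
      hvU hpi
  · exact core hKc hKv hΓK hΩo hXo hΩc hd hu hfΩ hfX hΩK hd2.symm
      (by rw [union_comm]; exact hUV) (preconn hVs) (preconn hUs) h hvV hpi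

end Pool.Agent.H741.EL
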